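import Pool.Agent.U753.MY.Stm

/-!
# Project MY, package TS: the Gibbs state is translation invariant
-/

set_option autoImplicit false

open scoped BigOperators Classical Matrix
open scoped Matrix.Norms.L2Operator

noncomputable section

namespace Pool.Agent.U934.MY

open Pool.Agent.TH235.PP (BoxOp TorOp Site term ham sh)
open Pool.Agent.U753.MX (part gibbs)

theorem exp_inv {n : Type} [Fintype n] [DecidableEq n] (K : Matrix n n ℂ) (e : n ≃ n)
    (h : K.submatrix e e = K) (s t : n) :
    NormedSpace.exp (-K) (e s) (e t) = NormedSpace.exp (-K) s t := by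
  let _ : NormedAlgebra ℚ (Matrix n n ℂ) := NormedAlgebra.restrictScalars ℚ ℂ (Matrix n n ℂ)
  have hf : Continuous (Matrix.reindexAlgEquiv ℂ ℂ e.symm) := by
    exact LinearMap.continuous_of_finiteDimensional
      (Matrix.reindexAlgEquiv ℂ ℂ e.symm : Matrix n n ℂ ≃ₐ[ℂ] Matrix n n ℂ).toLinearMap
  have h1 := NormedSpace.map_exp (Matrix.reindexAlgEquiv ℂ ℂ e.symm) hf (-K)
  have h2 : Matrix.reindexAlgEquiv ℂ ℂ e.symm (-K) = -K := by
    rw [map_neg]
    congr 1
  rw [h2] at h1
  exact congrFun (congrFun h1 s) t

/-- translation of the configurations -/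
def tr {m d : ℕ} (a : Site m) : (Site m → Fin d) ≃ (Site m → Fin d) where
  toFun s := fun v => s (v + a)
  invFun s := fun v => s (v - a)
  left_inv s := by funext v; simp
  right_inv s := by funext v; simp

theorem sh_add {b m : ℕ} (u a : Site m) (x : Fin b × Fin b) : sh u x + a = sh (u + a) x := by
  unfold sh
  ext
  · simp only [Prod.fst_add]; ring
  · simp only [Prod.snd_add]; ring

theorem term_tr {d b m : ℕ} (h : BoxOp d b) (a u : Site m) (s t : Site m → Fin d) :
    term h u (tr a s) (tr a t) = term h (u + a) s t := by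
  unfold term tr
  simp only [Equiv.coe_fn_mk, sh_add]
  have : (∀ v, (∀ x : Fin b × Fin b, sh u x ≠ v) → s (v + a) = t (v + a)) ↔
      ∀ v, (∀ x : Fin b × Fin b, sh (u + a) x ≠ v) → s v = t v := by
    constructor
    · intro H v hv
      have := H (v - a) (fun x hx => hv x (by rw [← sh_add, hx, sub_add_cancel]))
      rwa [sub_add_cancel] at this
    · intro H v hv
      refine H (v + a) (fun x hx => hv x ?_)
      rw [← sh_add] at hx
      exact add_right_cancel hx
  simp only [this]

theorem ham_tr {d b m : ℕ} [NeZero m] (h : BoxOp d b) (a : Site m) :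
    (ham h m).submatrix (tr a) (tr a) = ham h m := by
  ext s t
  rw [Matrix.submatrix_apply]
  unfold ham
  rw [Matrix.sum_apply, Matrix.sum_apply]
  simp only [term_tr]
  exact Equiv.sum_comp (Equiv.addRight a) (fun u => term h u s t)

theorem t_ts : Pool.Agent.U753.MY.StmTS := by
  intro d b m _ h a s t
  unfold gibbs
  rw [Matrix.smul_apply, Matrix.smul_apply]
  congr 1
  exact exp_inv (ham h m) (tr a) (ham_tr h a) s t

end Pool.Agent.U934.MY
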